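import Pool.Agent.U150.RG.It

/-!
# Iterated lower and upper means over the primes of `ℤ[ω]`
-/

set_option autoImplicit false
set_option linter.unusedSectionVars false

open scoped Classical ENNReal

namespace Pool.Agent.U150.RG

open Finset Matrix Filter Topology NumberField
open Pool.Agent.U687.KT Pool.Agent.U687.MC
open Pool.Agent.Y692.QS (Ei w nr)
open Pool.Agent.Y715.T.Rec (cs nn)
open Pool.Agent.Y715.T.RecG (Pq)
open Pool.Agent.Y703.CT (Dt pD)

/-- the primes -/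
def PE (a : ZMod 3) (X : ℕ) : Set Ei :=
  {q : Ei | Prime q ∧ (3 : Ei) ∣ q - 1 ∧ nr q ≤ X ∧ nr q % 9 = 1 + 3 * (a.val : ℤ)}

/-- the mean -/
noncomputable def avE (a : ZMod 3) (D : Ei) (T : Ei → ℝ≥0∞) (X : ℕ) : ℝ≥0∞ :=
  (∑ᶠ q ∈ {q : Ei | q ∈ PE a X ∧ ¬ q ∣ D}, T q) / ((PE a X).ncard : ℝ≥0∞)

/-- the iterated lower means -/
noncomputable def loE (a f : ℕ → ZMod 3) (T : Ei → ℝ≥0∞) : ℕ → Ei → ℝ≥0∞
  | 0, D => T D
  | k + 1, D => liminf (avE (a k) D (fun q => loE a f T k (D * q ^ (f k).val))) atTop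

/-- the iterated upper means -/
noncomputable def upE (a f : ℕ → ZMod 3) (T : Ei → ℝ≥0∞) : ℕ → Ei → ℝ≥0∞
  | 0, D => T D
  | k + 1, D => limsup (avE (a k) D (fun q => upE a f T k (D * q ^ (f k).val))) atTop

section
variable {K : Type} [Field K] [NumberField K] (j : Ei ≃+* 𝓞 K)

theorem mem_PR (hj : ∀ z : Ei, Algebra.norm ℤ (j z) = nr z) (a : ZMod 3) (X : ℕ) (z : Ei) :
    j z ∈ PR K a X ↔ z ∈ PE a X := by
  unfold PR PE
  simp only [Set.mem_ofPred_eq]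
  rw [hj]
  refine and_congr (MulEquiv.prime_iff (j : Ei ≃* 𝓞 K)) (and_congr_left fun _ => ?_)
  have h4 : j z - 1 = j (z - 1) := by rw [map_sub, map_one]
  rw [h4, ← map_ofNat j 3]
  exact map_dvd_iff j

theorem PR_eq (hj : ∀ z : Ei, Algebra.norm ℤ (j z) = nr z) (a : ZMod 3) (X : ℕ) :
    PR K a X = j '' PE a X := by
  ext q
  obtain ⟨z, rfl⟩ := j.surjective q
  rw [mem_PR j hj, j.injective.mem_set_image]

theorem SR_eq (hj : ∀ z : Ei, Algebra.norm ℤ (j z) = nr z) (a : ZMod 3) (D : Ei) (X : ℕ) :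
    SR a (j D) X = j '' {q : Ei | q ∈ PE a X ∧ ¬ q ∣ D} := by
  ext q
  obtain ⟨z, rfl⟩ := j.surjective q
  rw [j.injective.mem_set_image]
  unfold SR
  simp only [Set.mem_ofPred_eq]
  rw [mem_PR j hj, map_dvd_iff j]

theorem av_tr (hj : ∀ z : Ei, Algebra.norm ℤ (j z) = nr z) (a : ZMod 3) (D : Ei)
    (T : 𝓞 K → ℝ≥0∞) (X : ℕ) :
    mE (PR K a) (SR a (j D)) T X = avE a D (fun z => T (j z)) X := by
  unfold mE avE
  rw [SR_eq j hj, PR_eq j hj, finsum_mem_image j.injective.injOn,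
    Set.ncard_image_of_injective _ j.injective]

theorem lo_tr (hj : ∀ z : Ei, Algebra.norm ℤ (j z) = nr z) (a f : ℕ → ZMod 3)
    (T : 𝓞 K → ℝ≥0∞) (k : ℕ) : ∀ D : Ei, lo a f T k (j D) = loE a f (fun z => T (j z)) k D := by
  induction k with
  | zero =>
    intro D
    rfl
  | succ k ih =>
    intro D
    show liminf (mE (PR K (a k)) (SR (a k) (j D)) (fun q => lo a f T k (j D * q ^ (f k).val)))
      atTop = liminf (avE (a k) D (fun q => loE a f (fun z => T (j z)) k (D * q ^ (f k).val))) atTop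
    congr 1
    funext X
    rw [av_tr j hj]
    congr 1
    funext z
    rw [← ih, map_mul, map_pow]

theorem up_tr (hj : ∀ z : Ei, Algebra.norm ℤ (j z) = nr z) (a f : ℕ → ZMod 3)
    (T : 𝓞 K → ℝ≥0∞) (k : ℕ) : ∀ D : Ei, up a f T k (j D) = upE a f (fun z => T (j z)) k D := by
  induction k with
  | zero =>
    intro D
    rfl
  | succ k ih =>
    intro D
    show limsup (mE (PR K (a k)) (SR (a k) (j D)) (fun q => up a f T k (j D * q ^ (f k).val)))
      atTop = limsup (avE (a k) D (fun q => upE a f (fun z => T (j z)) k (D * q ^ (f k).val))) atTop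
    congr 1
    funext X
    rw [av_tr j hj]
    congr 1
    funext z
    rw [← ih, map_mul, map_pow]

/-- the symbols -/
theorem rf_of_dt (hj : ∀ z : Ei, Algebra.norm ℤ (j z) = nr z) {n : ℕ} {π : Fin n → Ei}
    {e : Fin n → ZMod 3} (h : Dt π e) {χ : Fin n → Fin n → ZMod 3}
    (hχ : ∀ k l, k ≠ l → χ k l = cs (π k) (π l)) :
    RF (j w) (j (pD π e)) n (fun i => j (π i)) e χ := by
  refine ⟨fun i => ⟨(prime_j j (h.pq i)).1, (prime_j j (h.pq i)).2, h.e0 i⟩, ?_, fun i k hik => ?_⟩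
  · unfold pD
    rw [map_prod]
    simp only [map_pow]
  · have hnd : ¬ π k ∣ π i := h.nd i k hik
    refine ⟨fun hd => hnd ((map_dvd_iff j).1 hd), ?_⟩
    have h4 := Pool.Agent.Y715.T.RecG.cs_spec (h.pq k).prime (h.pq k).norm hnd
    have h5 := map_dvd j h4
    rw [map_sub, map_pow, map_pow] at h5
    have h6 : nn (π k) = ((Algebra.norm ℤ (j (π k))).natAbs - 1) / 3 := by
      unfold nn
      rw [hj]
    rw [h6] at h5
    rw [hχ k i hik.symm]
    exact h5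

/-- the number of the solutions does not depend on the diagonal -/
theorem sol_diag {n : ℕ} (e : Fin n → ZMod 3) {χ χ' : Fin n → Fin n → ZMod 3}
    (h : ∀ k l, k ≠ l → χ k l = χ' k l) : sol e χ = sol e χ' := by
  unfold sol
  refine Nat.card_congr (Equiv.subtypeEquivRight fun v => forall_congr' fun k => ?_)
  have h1 : ∑ i, e i * χ k i * (v i - v k) = ∑ i, e i * χ' k i * (v i - v k) := by
    refine Finset.sum_congr rfl fun i _ => ?_
    by_cases hki : k = i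
    · rw [hki, sub_self, mul_zero, mul_zero]
    · rw [h k i hki]
  rw [h1]

end

/-- the number of the solutions for primes of `ℤ[ω]` -/
noncomputable def solE {n : ℕ} (π : Fin n → Ei) (e : Fin n → ZMod 3) : ℕ :=
  sol e (fun k l => cs (π k) (π l))

theorem exists_jj : ∃ (K : Type) (_ : Field K) (_ : NumberField K) (j : Ei ≃+* 𝓞 K),
    ∀ z : Ei, Algebra.norm ℤ (j z) = nr z := by
  have : NeZero ((3 : ℕ) : ℚ) := ⟨by norm_num⟩
  have : IsCyclotomicExtension {3} ℚ (CyclotomicField 3 ℚ) :=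
    CyclotomicField.isCyclotomicExtension 3 ℚ
  obtain ⟨⟨j, hj⟩, -⟩ := Pool.Agent.Y455.CTK.jex (CyclotomicField 3 ℚ)
  exact ⟨CyclotomicField 3 ℚ, inferInstance, inferInstance, j, hj⟩

theorem SE_symm {n : ℕ} {π : Fin n → Ei} {e : Fin n → ZMod 3} (h : Dt π e)
    {χ : Fin n → Fin n → ZMod 3} (hχ : ∀ k l, k ≠ l → χ k l = cs (π k) (π l)) :
    (SM e χ).IsSymm := by
  obtain ⟨K, _, _, j, hj⟩ := exists_jj
  exact SM_symm (rf_symm j hj (rf_of_dt j hj h hχ))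

/-- the transported hypothesis -/
theorem dt_of_rf {K : Type} [Field K] [NumberField K] (j : Ei ≃+* 𝓞 K)
    (hj : ∀ z : Ei, Algebra.norm ℤ (j z) = nr z) {D : 𝓞 K} {n : ℕ} {π : Fin n → 𝓞 K}
    {e : Fin n → ZMod 3} {χ : Fin n → Fin n → ZMod 3} (h : RF (j w) D n π e χ)
    (h9 : ¬ (9 : ℤ) ∣ Algebra.norm ℤ D - 1) : Dt (fun k => j.symm (π k)) e ∧
      j.symm D = pD (fun k => j.symm (π k)) e ∧
      ¬ (9 : ℤ) ∣ nr (pD (fun k => j.symm (π k)) e) - 1 ∧
      sol e χ = solE (fun k => j.symm (π k)) e := by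
  obtain ⟨h1, h2, h3⟩ := rf_data j hj h
  refine ⟨h1, ?_, ?_, sol_diag e h3⟩
  · rw [h2, RingEquiv.symm_apply_apply]
  · rw [h2, hj] at h9
    exact h9

/-- **the iterated lower means, for the elements of `ℤ[ω]`** -/
theorem loE_main (a f : ℕ → ZMod 3) (hf : ∀ k, f k ≠ 0) (T : Ei → ℝ≥0∞) (G : ℕ → ℝ)
    (hG : ∀ r, 0 ≤ G r)
    (hT : ∀ (n : ℕ) (π : Fin n → Ei) (e : Fin n → ZMod 3), Dt π e →
      ¬ (9 : ℤ) ∣ nr (pD π e) - 1 → ∀ r, solE π e = 3 ^ (r + 1) →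
        ENNReal.ofReal (G r) ≤ T (pD π e)) (k : ℕ) {n : ℕ} {π : Fin n → Ei}
    {e : Fin n → ZMod 3} (h : Dt π e) {χ : Fin n → Fin n → ZMod 3}
    (hχ : ∀ k l, k ≠ l → χ k l = cs (π k) (π l))
    (ha : ¬ (9 : ℤ) ∣ nr (pD π e) * ∏ i ∈ Finset.range (k + 1),
        (1 + 3 * ((a i).val : ℤ)) ^ (f i).val - 1) :
    ENNReal.ofReal (EE k (SM e χ) G) ≤ loE a f T (k + 1) (pD π e) := by
  obtain ⟨K, _, _, j, hj⟩ := exists_jj
  have h1 := lo_main j hj a f hf (fun D => T (j.symm D)) G hG (by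
    intro D n π e χ hR h9 r hr
    obtain ⟨c1, c2, c3, c4⟩ := dt_of_rf j hj hR h9
    rw [c4] at hr
    have := hT n _ e c1 c3 r hr
    rwa [← c2] at this) k (j (pD π e)) n _ e _ (rf_of_dt j hj h hχ) (by rw [hj]; exact ha)
  rw [lo_tr j hj] at h1
  simp only [RingEquiv.symm_apply_apply] at h1
  exact h1

/-- **the iterated upper means, for the elements of `ℤ[ω]`** -/
theorem upE_main (a f : ℕ → ZMod 3) (hf : ∀ k, f k ≠ 0) (T : Ei → ℝ≥0∞) (G : ℕ → ℝ)
    (hG : ∀ r, 0 ≤ G r)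
    (hT : ∀ (n : ℕ) (π : Fin n → Ei) (e : Fin n → ZMod 3), Dt π e →
      ¬ (9 : ℤ) ∣ nr (pD π e) - 1 → ∀ r, solE π e = 3 ^ (r + 1) →
        T (pD π e) ≤ ENNReal.ofReal (G r)) (k : ℕ) {n : ℕ} {π : Fin n → Ei}
    {e : Fin n → ZMod 3} (h : Dt π e) {χ : Fin n → Fin n → ZMod 3}
    (hχ : ∀ k l, k ≠ l → χ k l = cs (π k) (π l))
    (ha : ¬ (9 : ℤ) ∣ nr (pD π e) * ∏ i ∈ Finset.range (k + 1),
        (1 + 3 * ((a i).val : ℤ)) ^ (f i).val - 1) :
    upE a f T (k + 1) (pD π e) ≤ ENNReal.ofReal (EE k (SM e χ) G) := by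
  obtain ⟨K, _, _, j, hj⟩ := exists_jj
  have h1 := up_main j hj a f hf (fun D => T (j.symm D)) G hG (by
    intro D n π e χ hR h9 r hr
    obtain ⟨c1, c2, c3, c4⟩ := dt_of_rf j hj hR h9
    rw [c4] at hr
    have := hT n _ e c1 c3 r hr
    rwa [← c2] at this) k (j (pD π e)) n _ e _ (rf_of_dt j hj h hχ) (by rw [hj]; exact ha)
  rw [up_tr j hj] at h1
  simp only [RingEquiv.symm_apply_apply] at h1
  exact h1

end Pool.Agent.U150.RG
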