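import Mathlib

/-!
# Means of functions with values in `[0, ∞]` over finite sets, and their lower and upper limits
-/

set_option autoImplicit false

open scoped Classical ENNReal

namespace Pool.Agent.U150.RG

open Filter Topology

variable {α : Type}

/-- the mean -/
noncomputable def mE (P S : ℕ → Set α) (T : α → ℝ≥0∞) (X : ℕ) : ℝ≥0∞ :=
  (∑ᶠ q ∈ S X, T q) / ((P X).ncard : ℝ≥0∞)

theorem mE_mono {P S : ℕ → Set α} (hS : ∀ X, (S X).Finite) {T V : α → ℝ≥0∞}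
    (h : ∀ X, ∀ q ∈ S X, T q ≤ V q) (X : ℕ) : mE P S T X ≤ mE P S V X := by
  unfold mE
  rw [finsum_mem_eq_finite_toFinset_sum _ (hS X), finsum_mem_eq_finite_toFinset_sum _ (hS X)]
  exact ENNReal.div_le_div_right
    (Finset.sum_le_sum fun q hq => h X q ((hS X).mem_toFinset.1 hq)) _

theorem mE_ofReal {P S : ℕ → Set α} (hP : ∀ X, (P X).Finite) (hS : ∀ X, S X ⊆ P X) {V : α → ℝ}
    (hV : ∀ q, 0 ≤ V q) (X : ℕ) : mE P S (fun q => ENNReal.ofReal (V q)) X =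
      ENNReal.ofReal ((∑ᶠ q ∈ S X, V q) / ((P X).ncard : ℝ)) := by
  unfold mE
  rw [finsum_mem_eq_finite_toFinset_sum _ ((hP X).subset (hS X)),
    finsum_mem_eq_finite_toFinset_sum _ ((hP X).subset (hS X))]
  rcases Nat.eq_zero_or_pos (P X).ncard with h | h
  · have h1 : P X = ∅ := (Set.ncard_eq_zero (hP X)).1 h
    have h2 : ((hP X).subset (hS X)).toFinset = ∅ := by
      rw [Set.Finite.toFinset_eq_empty]
      exact Set.subset_empty_iff.1 (h1 ▸ hS X)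
    rw [h2, Finset.sum_empty, Finset.sum_empty, zero_div, ENNReal.ofReal_zero, ENNReal.zero_div]
  · rw [ENNReal.ofReal_div_of_pos (by exact_mod_cast h), ENNReal.ofReal_natCast,
      ENNReal.ofReal_sum_of_nonneg fun q _ => hV q]

theorem mE_tendsto {P S : ℕ → Set α} (hP : ∀ X, (P X).Finite) (hS : ∀ X, S X ⊆ P X) {V : α → ℝ}
    (hV : ∀ q, 0 ≤ V q) {L : ℝ}
    (hL : Tendsto (fun X => (∑ᶠ q ∈ S X, V q) / ((P X).ncard : ℝ)) atTop (𝓝 L)) :
    Tendsto (mE P S (fun q => ENNReal.ofReal (V q))) atTop (𝓝 (ENNReal.ofReal L)) := by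
  have h1 := (ENNReal.continuous_ofReal.tendsto L).comp hL
  exact h1.congr fun X => (mE_ofReal hP hS hV X).symm

theorem low_le {P S : ℕ → Set α} (hP : ∀ X, (P X).Finite) (hS : ∀ X, S X ⊆ P X) {V : α → ℝ}
    (hV : ∀ q, 0 ≤ V q) {L : ℝ}
    (hL : Tendsto (fun X => (∑ᶠ q ∈ S X, V q) / ((P X).ncard : ℝ)) atTop (𝓝 L)) {T : α → ℝ≥0∞}
    (hT : ∀ X, ∀ q ∈ S X, ENNReal.ofReal (V q) ≤ T q) :
    ENNReal.ofReal L ≤ liminf (mE P S T) atTop := by
  rw [← (mE_tendsto hP hS hV hL).liminf_eq]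
  exact liminf_le_liminf (Eventually.of_forall fun X =>
    mE_mono (fun X => (hP X).subset (hS X)) hT X)

theorem le_up {P S : ℕ → Set α} (hP : ∀ X, (P X).Finite) (hS : ∀ X, S X ⊆ P X) {V : α → ℝ}
    (hV : ∀ q, 0 ≤ V q) {L : ℝ}
    (hL : Tendsto (fun X => (∑ᶠ q ∈ S X, V q) / ((P X).ncard : ℝ)) atTop (𝓝 L)) {T : α → ℝ≥0∞}
    (hT : ∀ X, ∀ q ∈ S X, T q ≤ ENNReal.ofReal (V q)) :
    limsup (mE P S T) atTop ≤ ENNReal.ofReal L := by
  rw [← (mE_tendsto hP hS hV hL).limsup_eq]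
  exact limsup_le_limsup (Eventually.of_forall fun X =>
    mE_mono (fun X => (hP X).subset (hS X)) hT X)

end Pool.Agent.U150.RG
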