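import Mathlib

/-!
# Numerical facts on the limit law
-/

set_option autoImplicit false

namespace Pool.Agent.U150.RG

open Finset

/-- `∑ s / 2 ^ s` -/
theorem sum_half (N : ℕ) : ∑ s ∈ range N, (s : ℝ) * (1 / 2 ^ s) + (2 * N + 2) / 2 ^ N = 2 := by
  induction N with
  | zero => norm_num
  | succ N ih =>
    rw [sum_range_succ]
    have h2 : (2 : ℝ) ^ N ≠ 0 := by positivity
    have e1 : (N : ℝ) * (1 / 2 ^ N) + (2 * ((N + 1 : ℕ) : ℝ) + 2) / 2 ^ (N + 1) =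
        (2 * N + 2) / 2 ^ N := by
      rw [pow_succ]
      push_cast
      field_simp
      ring
    linarith

theorem sum_half_le (N : ℕ) : ∑ s ∈ range N, (s : ℝ) * (1 / 2 ^ s) ≤ 2 := by
  have h1 := sum_half N
  have h2 : (0 : ℝ) ≤ (2 * N + 2) / 2 ^ N := by positivity
  linarith

variable {p : ℕ → ℝ}

theorem p_values (h1 : ∀ r, p r = ((3 : ℝ) ^ (r + 1) - 1) * p (r + 1)) :
    p 1 = p 0 / 2 ∧ p 2 = p 0 / 16 ∧ p 3 = p 0 / 416 := by
  have a0 := h1 0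
  have a1 := h1 1
  have a2 := h1 2
  norm_num at a0 a1 a2
  refine ⟨by linarith, by linarith, by linarith⟩

theorem mean_step (h0 : ∀ r, 0 < p r) (h1 : ∀ r, p r = ((3 : ℝ) ^ (r + 1) - 1) * p (r + 1))
    {r : ℕ} (hr : 3 ≤ r) : 60 * (((r + 1 : ℕ) : ℝ) * p (r + 1)) ≤ r * p r := by
  have h2 : (81 : ℝ) ≤ 3 ^ (r + 1) := by
    have : (3 : ℝ) ^ 4 ≤ 3 ^ (r + 1) := pow_le_pow_right₀ (by norm_num) (by omega)
    linarith
  rw [h1 r]
  have h3 := h0 (r + 1)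
  have h4 : (3 : ℝ) ≤ r := by exact_mod_cast hr
  push_cast
  have h5 : 80 * (r : ℝ) ≤ r * (3 ^ (r + 1) - 1) := by nlinarith
  nlinarith [mul_le_mul_of_nonneg_right h5 h3.le, mul_nonneg (sub_nonneg.2 h4) h3.le]

theorem mean_cum (h0 : ∀ r, 0 < p r) (h1 : ∀ r, p r = ((3 : ℝ) ^ (r + 1) - 1) * p (r + 1))
    (m : ℕ) : ∑ s ∈ range (m + 3), (s : ℝ) * p s + 60 / 59 * (((m + 3 : ℕ) : ℝ) * p (m + 3)) ≤
      p 1 + 2 * p 2 + 60 / 59 * (3 * p 3) := by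
  induction m with
  | zero =>
    simp [sum_range_succ]
  | succ m ih =>
    have h2 := mean_step h0 h1 (r := m + 3) (by omega)
    have e1 : m + 1 + 3 = (m + 3) + 1 := by omega
    rw [e1, sum_range_succ]
    linarith

theorem mean_le (h0 : ∀ r, 0 < p r) (h1 : ∀ r, p r = ((3 : ℝ) ^ (r + 1) - 1) * p (r + 1))
    (hp : p 0 < 0.6391) (N : ℕ) : ∑ s ∈ range N, (s : ℝ) * p s ≤ 0.4042 := by
  have h2 : ∑ s ∈ range N, (s : ℝ) * p s ≤ ∑ s ∈ range (N + 3), (s : ℝ) * p s :=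
    Finset.sum_le_sum_of_subset_of_nonneg (Finset.range_mono (by omega)) fun s _ _ => by
      have := h0 s
      positivity
  have h3 := mean_cum h0 h1 N
  have h4 : 0 ≤ 60 / 59 * (((N + 3 : ℕ) : ℝ) * p (N + 3)) := by
    have := h0 (N + 3)
    positivity
  obtain ⟨v1, v2, v3⟩ := p_values h1
  rw [v1, v2, v3] at h3
  norm_num at hp h3 h4 ⊢
  linarith

/-- the mean of a law near the limit law -/
theorem mean_near (h0 : ∀ r, 0 < p r) (h1 : ∀ r, p r = ((3 : ℝ) ^ (r + 1) - 1) * p (r + 1))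
    (hp : p 0 < 0.6391) {q : ℕ → ℝ} {c : ℝ} (hq : ∀ r, |q r - p r| ≤ c / 2 ^ r) (N : ℕ) :
    ∑ s ∈ range N, (s : ℝ) * q s ≤ 0.4042 + 2 * c := by
  have hc : 0 ≤ c := by
    have := (abs_nonneg _).trans (hq 0)
    simpa using this
  have h2 : ∀ s ∈ range N, (s : ℝ) * q s ≤ (s : ℝ) * p s + c * ((s : ℝ) * (1 / 2 ^ s)) := by
    intro s _
    have h3 := (abs_le.1 (hq s)).2
    have h4 : q s ≤ p s + c / 2 ^ s := by linarith
    have h5 : (0 : ℝ) ≤ s := Nat.cast_nonneg s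
    calc (s : ℝ) * q s ≤ s * (p s + c / 2 ^ s) := mul_le_mul_of_nonneg_left h4 h5
      _ = _ := by ring
  refine (Finset.sum_le_sum h2).trans ?_
  rw [Finset.sum_add_distrib, ← Finset.mul_sum]
  have h6 := mean_le h0 h1 hp N
  have h7 := mul_le_mul_of_nonneg_left (sum_half_le N) hc
  linarith

end Pool.Agent.U150.RG
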