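import Pool.Agent.U687.MC.Avg
import Pool.Agent.U150.RG.Abs
import Pool.Agent.U150.RG.Num

/-!
# Iterated lower and upper means over primes

The versions with inequalities of the facts of `Pool/Agent/U687/MC/Avg.lean` (helper687).
-/

set_option autoImplicit false
set_option linter.unusedSectionVars false

open scoped Classical ENNReal

namespace Pool.Agent.U150.RG

open Finset Matrix Filter Topology NumberField
open Pool.Agent.U687.KT Pool.Agent.U687.MC
open Pool.Agent.Y692.QS (Ei w nr)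
open Pool.Agent.Y715.T.Rec (cs)
open Pool.Agent.Y715.T.RecG (Pq)

section
variable {K : Type} [Field K] [NumberField K]

/-- the primes that do not divide `D` -/
def SR (a : ZMod 3) (D : 𝓞 K) (X : ℕ) : Set (𝓞 K) := {q : 𝓞 K | q ∈ PR K a X ∧ ¬ q ∣ D}

/-- the iterated lower means -/
noncomputable def lo (a f : ℕ → ZMod 3) (T : 𝓞 K → ℝ≥0∞) : ℕ → 𝓞 K → ℝ≥0∞
  | 0, D => T D
  | k + 1, D =>
    liminf (mE (PR K (a k)) (SR (a k) D) (fun q => lo a f T k (D * q ^ (f k).val))) atTop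

/-- the iterated upper means -/
noncomputable def up (a f : ℕ → ZMod 3) (T : 𝓞 K → ℝ≥0∞) : ℕ → 𝓞 K → ℝ≥0∞
  | 0, D => T D
  | k + 1, D =>
    limsup (mE (PR K (a k)) (SR (a k) D) (fun q => up a f T k (D * q ^ (f k).val))) atTop

variable (j : Ei ≃+* 𝓞 K)

/-- the two laws -/
theorem law_two (hj : ∀ z : Ei, Algebra.norm ℤ (j z) = nr z) {D : 𝓞 K} {n : ℕ}
    {π : Fin n → 𝓞 K} {e : Fin n → ZMod 3} {χ : Fin n → Fin n → ZMod 3}
    (h : RF (j w) D n π e χ) (a : ZMod 3) (F : (Fin n → ZMod 3) → ℝ) (hF : ∀ x, 0 ≤ F x)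
    (T : 𝓞 K → ℝ≥0∞) :
    ((∀ z, Pq z → (∀ k, j.symm (π k) ≠ z) → cs z w = a →
      ENNReal.ofReal (F (fun k => cs z (j.symm (π k)))) ≤ T (j z)) →
      ENNReal.ofReal ((∑ x, F x) / 3 ^ n) ≤ liminf (mE (PR K a) (SR a D) T) atTop) ∧
    ((∀ z, Pq z → (∀ k, j.symm (π k) ≠ z) → cs z w = a →
      T (j z) ≤ ENNReal.ofReal (F (fun k => cs z (j.symm (π k))))) →
      limsup (mE (PR K a) (SR a D) T) atTop ≤ ENNReal.ofReal ((∑ x, F x) / 3 ^ n)) := by
  have h1 := mean_law j hj h a F (fun q => F (fun k => cs (j.symm q) (j.symm (π k)))) (by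
    intro z _ _ _
    simp only [RingEquiv.symm_apply_apply])
  have key : ∀ X, ∀ q ∈ SR a D X, ∃ z, q = j z ∧ Pq z ∧ (∀ k, j.symm (π k) ≠ z) ∧ cs z w = a := by
    rintro X q ⟨⟨p1, p2, -, p4⟩, hq2⟩
    obtain ⟨z, rfl⟩ := j.surjective q
    have hz : Pq z := by
      have := Pool.Agent.Y696.CTK.pq_symm j p1 p2
      rwa [RingEquiv.symm_apply_apply] at this
    exact ⟨z, rfl, hz, (dvd_D j hj h hz).1 hq2, (norm_class hz a).1 (by rw [← hj]; exact p4)⟩
  constructor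
  · intro hT
    refine low_le (fun X => pr_fin j hj a X) (fun X q hq => hq.1) (fun q => hF _) h1 ?_
    intro X q hq
    obtain ⟨z, rfl, hz, h2, h3⟩ := key X q hq
    simp only [RingEquiv.symm_apply_apply]
    exact hT z hz h2 h3
  · intro hT
    refine le_up (fun X => pr_fin j hj a X) (fun X q hq => hq.1) (fun q => hF _) h1 ?_
    intro X q hq
    obtain ⟨z, rfl, hz, h2, h3⟩ := key X q hq
    simp only [RingEquiv.symm_apply_apply]
    exact hT z hz h2 h3

/-- the sum over the twisted symbols -/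
theorem sum_y {n : ℕ} {e : Fin n → ZMod 3} (he : ∀ k, e k ≠ 0) (χ : Fin n → Fin n → ZMod 3)
    {f : ZMod 3} (hf : f ≠ 0) (G : ℕ → ℝ) :
    ∑ x : Fin n → ZMod 3, G (cor (SM e χ + diagonal (yx e χ f x))) =
      ∑ y : Fin n → ZMod 3, G (cor (SM e χ + diagonal y)) :=
  Fintype.sum_bijective _ (yx_bij χ he hf) _ _ fun _ => rfl

theorem sum_b {n : ℕ} {e : Fin n → ZMod 3} (he : ∀ k, e k ≠ 0) (χ : Fin n → Fin n → ZMod 3)
    {f : ZMod 3} (hf : f ≠ 0) (k : ℕ) (G : ℕ → ℝ) :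
    ∑ x : Fin n → ZMod 3, EE k (bord (SM e χ) 0 (fun l => f * e l * x l)) G =
      ∑ b : Fin n → ZMod 3, EE k (bord (SM e χ) 0 b) G := by
  refine Fintype.sum_bijective (fun x : Fin n → ZMod 3 => fun l => f * e l * x l) ?_ _ _
    fun x => rfl
  have hinj : Function.Injective (fun x : Fin n → ZMod 3 => fun l => f * e l * x l) := by
    intro x x' hx
    funext l
    exact mul_left_cancel₀ (mul_ne_zero hf (he l)) (congrFun hx l)
  exact Finite.injective_iff_bijective.1 hinj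

/-- the condition modulo `9` for the product with a prime -/
theorem nine_step (hj : ∀ z : Ei, Algebra.norm ℤ (j z) = nr z) {a f : ℕ → ZMod 3} {k : ℕ}
    {D : 𝓞 K} (ha : ¬ (9 : ℤ) ∣ Algebra.norm ℤ D * ∏ i ∈ Finset.range (k + 1 + 1),
        (1 + 3 * ((a i).val : ℤ)) ^ (f i).val - 1) {z : Ei} (hz : Pq z)
    (haz : cs z w = a (k + 1)) :
    ¬ (9 : ℤ) ∣ Algebra.norm ℤ (D * (j z) ^ (f (k + 1)).val) * ∏ i ∈ Finset.range (k + 1),
        (1 + 3 * ((a i).val : ℤ)) ^ (f i).val - 1 := by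
  intro h9
  apply ha
  have hq : Algebra.norm ℤ (j z) % 9 = 1 + 3 * ((a (k + 1)).val : ℤ) := by
    rw [hj]
    exact (norm_class hz (a (k + 1))).2 haz
  rw [map_mul, map_pow] at h9
  have p1 : (9 : ℤ) ∣ Algebra.norm ℤ (j z) - (1 + 3 * ((a (k + 1)).val : ℤ)) := by
    rw [← hq]
    exact Int.dvd_self_sub_emod
  have p2 : (9 : ℤ) ∣ Algebra.norm ℤ (j z) ^ (f (k + 1)).val -
      (1 + 3 * ((a (k + 1)).val : ℤ)) ^ (f (k + 1)).val :=
    dvd_trans p1 (sub_dvd_pow_sub_pow _ _ _)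
  rw [Finset.prod_range_succ]
  have e1 : Algebra.norm ℤ D * ((∏ i ∈ Finset.range (k + 1),
      (1 + 3 * ((a i).val : ℤ)) ^ (f i).val) *
      (1 + 3 * ((a (k + 1)).val : ℤ)) ^ (f (k + 1)).val) - 1 =
      (Algebra.norm ℤ D * Algebra.norm ℤ (j z) ^ (f (k + 1)).val *
        ∏ i ∈ Finset.range (k + 1), (1 + 3 * ((a i).val : ℤ)) ^ (f i).val - 1) -
      (Algebra.norm ℤ D * ∏ i ∈ Finset.range (k + 1),
        (1 + 3 * ((a i).val : ℤ)) ^ (f i).val) *
      (Algebra.norm ℤ (j z) ^ (f (k + 1)).val -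
      (1 + 3 * ((a (k + 1)).val : ℤ)) ^ (f (k + 1)).val) := by ring
  rw [e1]
  exact dvd_sub h9 (p2.mul_left _)

/-- the facts for the last prime -/
theorem sol_last (hj : ∀ z : Ei, Algebra.norm ℤ (j z) = nr z) {a f : ℕ → ZMod 3}
    (hf : ∀ k, f k ≠ 0) {D : 𝓞 K} {n : ℕ} {π : Fin n → 𝓞 K} {e : Fin n → ZMod 3}
    {χ : Fin n → Fin n → ZMod 3} (h : RF (j w) D n π e χ)
    (ha : ¬ (9 : ℤ) ∣ Algebra.norm ℤ D * ∏ i ∈ Finset.range (0 + 1),
        (1 + 3 * ((a i).val : ℤ)) ^ (f i).val - 1) {z : Ei} (hz : Pq z)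
    (hne : ∀ k, j.symm (π k) ≠ z) (haz : cs z w = a 0) :
    ∃ (e' : Fin (n + 1) → ZMod 3) (χ' : Fin (n + 1) → Fin (n + 1) → ZMod 3)
      (π' : Fin (n + 1) → 𝓞 K), RF (j w) (D * (j z) ^ (f 0).val) (n + 1) π' e' χ' ∧
      ¬ (9 : ℤ) ∣ Algebra.norm ℤ (D * (j z) ^ (f 0).val) - 1 ∧
      sol e' χ' = 3 ^ (cor (SM e χ + diagonal (yx e χ (f 0) (fun k => cs z (j.symm (π k))))) + 1) := by
  obtain ⟨hdt, -, -⟩ := rf_data j hj h
  have hsym := rf_symm j hj h
  rw [Finset.prod_range_one] at ha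
  refine ⟨_, _, _, rf_cons j hj h (hf 0) hz hne, norm_nine ha ?_, ?_⟩
  · rw [hj]
    exact (norm_class hz (a 0)).2 haz
  · unfold sol
    rw [sol_card hdt.e0 (hf 0) hsym, (card_ker _).1, pow_succ']
    rfl

/-- **the iterated lower means of a function that is at least a function of the corank** -/
theorem lo_main (hj : ∀ z : Ei, Algebra.norm ℤ (j z) = nr z) (a f : ℕ → ZMod 3)
    (hf : ∀ k, f k ≠ 0) (T : 𝓞 K → ℝ≥0∞) (G : ℕ → ℝ) (hG : ∀ r, 0 ≤ G r)
    (hT : ∀ (D : 𝓞 K) (n : ℕ) (π : Fin n → 𝓞 K) (e : Fin n → ZMod 3)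
      (χ : Fin n → Fin n → ZMod 3), RF (j w) D n π e χ → ¬ (9 : ℤ) ∣ Algebra.norm ℤ D - 1 →
        ∀ r, sol e χ = 3 ^ (r + 1) → ENNReal.ofReal (G r) ≤ T D) (k : ℕ) :
    ∀ (D : 𝓞 K) (n : ℕ) (π : Fin n → 𝓞 K) (e : Fin n → ZMod 3)
      (χ : Fin n → Fin n → ZMod 3), RF (j w) D n π e χ →
      ¬ (9 : ℤ) ∣ Algebra.norm ℤ D * ∏ i ∈ Finset.range (k + 1),
        (1 + 3 * ((a i).val : ℤ)) ^ (f i).val - 1 →
      ENNReal.ofReal (EE k (SM e χ) G) ≤ lo a f T (k + 1) D := by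
  induction k with
  | zero =>
    intro D n π e χ h ha
    have he : ∀ k, e k ≠ 0 := (rf_data j hj h).1.e0
    have h1 := (law_two j hj h (a 0)
      (fun x => G (cor (SM e χ + diagonal (yx e χ (f 0) x)))) (fun x => hG _)
      (fun q => lo a f T 0 (D * q ^ (f 0).val))).1 (by
        intro z hz hne haz
        obtain ⟨e', χ', π', c1, c2, c3⟩ := sol_last j hj hf h ha hz hne haz
        exact hT _ _ _ _ _ c1 c2 _ c3)
    rw [sum_y he χ (hf 0)] at h1
    exact h1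
  | succ k ih =>
    intro D n π e χ h ha
    have he : ∀ k, e k ≠ 0 := (rf_data j hj h).1.e0
    have h1 := (law_two j hj h (a (k + 1))
      (fun x => EE k (bord (SM e χ) 0 (fun l => f (k + 1) * e l * x l)) G)
      (fun x => EE_nonneg k _ hG)
      (fun q => lo a f T (k + 1) (D * q ^ (f (k + 1)).val))).1 (by
        intro z hz hne haz
        have h3 := rf_cons j hj h (hf (k + 1)) hz hne
        have h4 := ih _ _ _ _ _ h3 (nine_step j hj ha hz haz)
        rw [SM_cons] at h4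
        exact h4)
    rw [sum_b he χ (hf (k + 1))] at h1
    exact h1

/-- **the iterated upper means of a function that is at most a function of the corank** -/
theorem up_main (hj : ∀ z : Ei, Algebra.norm ℤ (j z) = nr z) (a f : ℕ → ZMod 3)
    (hf : ∀ k, f k ≠ 0) (T : 𝓞 K → ℝ≥0∞) (G : ℕ → ℝ) (hG : ∀ r, 0 ≤ G r)
    (hT : ∀ (D : 𝓞 K) (n : ℕ) (π : Fin n → 𝓞 K) (e : Fin n → ZMod 3)
      (χ : Fin n → Fin n → ZMod 3), RF (j w) D n π e χ → ¬ (9 : ℤ) ∣ Algebra.norm ℤ D - 1 →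
        ∀ r, sol e χ = 3 ^ (r + 1) → T D ≤ ENNReal.ofReal (G r)) (k : ℕ) :
    ∀ (D : 𝓞 K) (n : ℕ) (π : Fin n → 𝓞 K) (e : Fin n → ZMod 3)
      (χ : Fin n → Fin n → ZMod 3), RF (j w) D n π e χ →
      ¬ (9 : ℤ) ∣ Algebra.norm ℤ D * ∏ i ∈ Finset.range (k + 1),
        (1 + 3 * ((a i).val : ℤ)) ^ (f i).val - 1 →
      up a f T (k + 1) D ≤ ENNReal.ofReal (EE k (SM e χ) G) := by
  induction k with
  | zero =>
    intro D n π e χ h ha
    have he : ∀ k, e k ≠ 0 := (rf_data j hj h).1.e0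
    have h1 := (law_two j hj h (a 0)
      (fun x => G (cor (SM e χ + diagonal (yx e χ (f 0) x)))) (fun x => hG _)
      (fun q => up a f T 0 (D * q ^ (f 0).val))).2 (by
        intro z hz hne haz
        obtain ⟨e', χ', π', c1, c2, c3⟩ := sol_last j hj hf h ha hz hne haz
        exact hT _ _ _ _ _ c1 c2 _ c3)
    rw [sum_y he χ (hf 0)] at h1
    exact h1
  | succ k ih =>
    intro D n π e χ h ha
    have he : ∀ k, e k ≠ 0 := (rf_data j hj h).1.e0
    have h1 := (law_two j hj h (a (k + 1))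
      (fun x => EE k (bord (SM e χ) 0 (fun l => f (k + 1) * e l * x l)) G)
      (fun x => EE_nonneg k _ hG)
      (fun q => up a f T (k + 1) (D * q ^ (f (k + 1)).val))).2 (by
        intro z hz hne haz
        have h3 := rf_cons j hj h (hf (k + 1)) hz hne
        have h4 := ih _ _ _ _ _ h3 (nine_step j hj ha hz haz)
        rw [SM_cons] at h4
        exact h4)
    rw [sum_b he χ (hf (k + 1))] at h1
    exact h1

end

/-! ### the values -/

section
variable {n : ℕ}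

/-- the weight of a set of ranks -/
theorem EE_set (k : ℕ) (A : Matrix (Fin n) (Fin n) (ZMod 3)) (d : ℕ) :
    EE k A (fun r => ∑ s ∈ Finset.range d, pt s r) = ∑ s ∈ Finset.range d, dd k A s :=
  EE_sum k A (Finset.range d) (fun s r => pt s r)

theorem set_val (d r : ℕ) : ∑ s ∈ Finset.range d, pt s r = if r < d then 1 else 0 := by
  unfold pt
  rw [Finset.sum_ite_eq]
  simp only [Finset.mem_range]

/-- the mean of a function of the rank -/
theorem EE_fun (k : ℕ) (A : Matrix (Fin n) (Fin n) (ZMod 3)) (G : ℕ → ℝ) :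
    EE k A G = ∑ s ∈ Finset.range (n + k + 1), G s * dd k A s := by
  have h1 : EE k A G = EE k A (fun r => ∑ s ∈ Finset.range (n + k + 1), G s * pt s r) := by
    refine EE_congr k A fun r hr => ?_
    rw [Finset.sum_eq_single r]
    · unfold pt
      rw [if_pos rfl, mul_one]
    · intro s _ hs
      unfold pt
      rw [if_neg hs.symm, mul_zero]
    · intro h
      exact absurd (Finset.mem_range.2 (by omega)) h
  rw [h1, EE_sum k A (Finset.range (n + k + 1)) (fun s r => G s * pt s r)]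
  refine Finset.sum_congr rfl fun s _ => ?_
  exact EE_smul k A (G s) (pt s)

theorem dd_lower (k : ℕ) {A : Matrix (Fin n) (Fin n) (ZMod 3)} (hA : A.IsSymm) (d : ℕ) :
    ∑ s ∈ Finset.range d, prob s - 3 * (2 ^ n + 1) * (2 / 3) ^ k ≤
      ∑ s ∈ Finset.range d, dd k A s := by
  have h1 : ∀ s ∈ Finset.range d, prob s - 3 / 2 * (2 ^ n + 1) * (2 / 3) ^ k * (1 / 2) ^ s ≤
      dd k A s := by
    intro s _
    have h2 := (abs_le.1 (conv k hA s)).1
    have h3 : 3 / 2 * (2 ^ n + 1) * (2 / 3 : ℝ) ^ k * (1 / 2) ^ s =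
        3 / 2 * (2 ^ n + 1) * (2 / 3) ^ k / 2 ^ s := by
      rw [_root_.one_div_pow]
      ring
    linarith
  refine le_trans ?_ (Finset.sum_le_sum h1)
  rw [Finset.sum_sub_distrib, ← Finset.mul_sum]
  have h4 : ∑ s ∈ Finset.range d, ((1 / 2 : ℝ)) ^ s ≤ 2 := by
    have h6 : ∑ s ∈ Finset.range d, ((1 / 2 : ℝ)) ^ s = 2 - 2 * (1 / 2) ^ d := by
      clear h1
      induction d with
      | zero => simp
      | succ d ih =>
        rw [Finset.sum_range_succ, ih, pow_succ]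
        ring
    rw [h6]
    have : (0 : ℝ) ≤ (1 / 2) ^ d := by positivity
    linarith
  have h5 : (0 : ℝ) ≤ 3 / 2 * (2 ^ n + 1) * (2 / 3) ^ k := by positivity
  nlinarith [mul_le_mul_of_nonneg_left h4 h5]

theorem dd_mean (k : ℕ) {A : Matrix (Fin n) (Fin n) (ZMod 3)} (hA : A.IsSymm) (N : ℕ) :
    ∑ s ∈ Finset.range N, (s : ℝ) * dd k A s ≤ 0.4042 + 3 * (2 ^ n + 1) * (2 / 3) ^ k := by
  have h1 := mean_near (p := prob) prob_pos prob_succ Pool.Agent.R419.KL.prob_facts.2.2.1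
    (q := dd k A) (c := 3 / 2 * (2 ^ n + 1) * (2 / 3) ^ k) (fun r => conv k hA r) N
  linarith

end

/-! ### the chain -/

/-- one more lemma on the first state -/
theorem chain_ge (k : ℕ) : ∀ {n : ℕ} (A : Matrix (Fin n) (Fin n) (ZMod 3)),
    (2 / 3 : ℝ) ^ (n + k) ≤ dd k A 0 := by
  induction k with
  | zero =>
    intro n A
    rw [dd_zero]
    exact shr_zero_ge A
  | succ k ih =>
    intro n A
    show _ ≤ (∑ x : Fin n → ZMod 3, EE k (bord A 0 x) (pt 0)) / 3 ^ n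
    rw [le_div_iff₀ (by positivity)]
    have h1 : ∑ _x : Fin n → ZMod 3, (2 / 3 : ℝ) ^ (n + 1 + k) =
        (2 / 3 : ℝ) ^ (n + (k + 1)) * 3 ^ n := by
      rw [Finset.sum_const, Finset.card_univ, Fintype.card_fun, Fintype.card_fin, ZMod.card,
        nsmul_eq_mul]
      push_cast
      rw [mul_comm]
      congr 2
      omega
    rw [← h1]
    exact Finset.sum_le_sum fun x _ => ih (bord A 0 x)

theorem small_error (n : ℕ) {δ : ℝ} (hδ : 0 < δ) :
    ∃ k₀ : ℕ, ∀ k, k₀ ≤ k → 3 * (2 ^ n + 1) * (2 / 3 : ℝ) ^ k ≤ δ := by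
  have h1 := (tendsto_pow_atTop_nhds_zero_of_lt_one (r := (2 / 3 : ℝ)) (by norm_num)
    (by norm_num)).const_mul (3 * (2 ^ n + 1 : ℝ))
  rw [mul_zero] at h1
  exact eventually_atTop.1 (h1.eventually (eventually_le_nhds hδ))

/-- **the numbers after sufficiently many steps** -/
theorem numbers (n : ℕ) : ∃ k₀ : ℕ, ∀ k, k₀ ≤ k → ∀ A : Matrix (Fin n) (Fin n) (ZMod 3),
    A.IsSymm → 0.639 ≤ dd k A 0 ∧ 0.9585 ≤ dd k A 0 + dd k A 1 ∧
      0.998 ≤ dd k A 0 + dd k A 1 + dd k A 2 ∧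
      ∀ N : ℕ, ∑ s ∈ Finset.range N, (s : ℝ) * dd k A s ≤ 0.405 := by
  obtain ⟨v1, v2, -⟩ := p_values (p := prob) prob_succ
  have v0 : 0.639 < prob 0 := Pool.Agent.R419.KL.prob_facts.2.1
  obtain ⟨k₀, hk₀⟩ := small_error n (δ := min (prob 0 - 0.639) 0.0004)
    (lt_min (by linarith) (by norm_num))
  refine ⟨k₀, fun k hk A hA => ?_⟩
  have hE := hk₀ k hk
  have hE1 := hE.trans (min_le_left _ _)
  have hE2 := hE.trans (min_le_right _ _)
  have c1 := dd_lower k hA 1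
  have c2 := dd_lower k hA 2
  have c3 := dd_lower k hA 3
  rw [Finset.sum_range_one, Finset.sum_range_one] at c1
  simp only [Finset.sum_range_succ, Finset.sum_range_zero, zero_add] at c2 c3
  norm_num at v0 hE1 hE2 c1 c2 c3
  refine ⟨?_, ?_, ?_, fun N => ?_⟩
  · norm_num
    linarith
  · norm_num
    linarith
  · norm_num
    linarith
  · have h1 := dd_mean k hA N
    norm_num at h1 ⊢
    linarith

end Pool.Agent.U150.RG
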