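import Mathlib

/-!
# The moments of the Markov chain of the coranks
-/

set_option autoImplicit false

namespace Pool.Agent.U150.RG

/-- the number of the `m`-tuples of linearly independent vectors in a space with `3 ^ r` elements -/
noncomputable def GG : ℕ → ℕ → ℝ
  | 0, _ => 1
  | m + 1, r => GG m r * (3 ^ r - 3 ^ m)

theorem GG_prod (m r : ℕ) : GG m r = ∏ i ∈ Finset.range m, ((3 : ℝ) ^ r - 3 ^ i) := by
  induction m with
  | zero => simp [GG]
  | succ m ih => rw [Finset.prod_range_succ, ← ih]; rfl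

/-- `GG (m + 1) (r + 1)` -/
theorem GG_up (m r : ℕ) : GG (m + 1) (r + 1) = 3 ^ m * (3 ^ (r + 1) - 1) * GG m r := by
  induction m with
  | zero =>
    show (1 : ℝ) * (3 ^ (r + 1) - 3 ^ 0) = 3 ^ 0 * (3 ^ (r + 1) - 1) * 1
    ring
  | succ m ih =>
    have h1 : GG (m + 1 + 1) (r + 1) = GG (m + 1) (r + 1) * (3 ^ (r + 1) - 3 ^ (m + 1)) := rfl
    have h2 : GG (m + 1) r = GG m r * (3 ^ r - 3 ^ m) := rfl
    rw [h1, ih, h2]
    ring

theorem GG_zero (m : ℕ) : GG (m + 1) 0 = 0 := by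
  induction m with
  | zero =>
    show (1 : ℝ) * (3 ^ 0 - 3 ^ 0) = 0
    ring
  | succ m ih =>
    have h1 : GG (m + 1 + 1) 0 = GG (m + 1) 0 * (3 ^ 0 - 3 ^ (m + 1)) := rfl
    rw [h1, ih, zero_mul]

/-- `GG m (r - 1)` -/
theorem GG_down (m r : ℕ) : (1 - (1 / 3) ^ r) * GG m (r - 1) = GG (m + 1) r / (3 ^ m * 3 ^ r) := by
  rcases r with _ | r
  · rw [GG_zero]
    simp
  · rw [Nat.add_sub_cancel, GG_up]
    have h1 : (3 : ℝ) ^ m ≠ 0 := by positivity
    have h2 : (3 : ℝ) ^ (r + 1) ≠ 0 := by positivity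
    rw [div_pow, one_pow]
    field_simp

/-- the backward operator of the chain (as in `Pool.Agent.U687.MC.Chain`) -/
noncomputable def UV (G : ℕ → ℝ) (r : ℕ) : ℝ :=
  (1 - (1 / 3) ^ r) * G (r - 1) + (1 / 3) ^ (r + 1) * (2 * G r + G (r + 1))

/-- **one step of the moments** -/
theorem UV_GG (m r : ℕ) : UV (GG (m + 1)) r =
    (1 / 3) ^ (m + 1) * GG (m + 1) r + (1 - (1 / 3) ^ (m + 1)) * 3 ^ m * GG m r := by
  unfold UV
  rw [GG_down, GG_up]
  have h1 : GG (m + 1 + 1) r = GG (m + 1) r * (3 ^ r - 3 ^ (m + 1)) := rfl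
  have h2 : GG (m + 1) r = GG m r * (3 ^ r - 3 ^ m) := rfl
  rw [h1, h2]
  have h3 : (3 : ℝ) ^ m ≠ 0 := by positivity
  have h4 : (3 : ℝ) ^ r ≠ 0 := by positivity
  simp only [div_pow, one_pow, pow_succ]
  field_simp
  ring

theorem GG_nonneg (m r : ℕ) : 0 ≤ GG m r := by
  rcases le_or_gt m r with h | h
  · rw [GG_prod]
    refine Finset.prod_nonneg fun i hi => ?_
    have h1 : (3 : ℝ) ^ i ≤ 3 ^ r :=
      pow_le_pow_right₀ (by norm_num) (by have := Finset.mem_range.1 hi; omega)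
    linarith
  · rw [GG_prod, Finset.prod_eq_zero (Finset.mem_range.2 h) (sub_self _)]

theorem GG_le (m r : ℕ) : GG m r ≤ 3 ^ (m * r) := by
  rcases le_or_gt m r with h | h
  · rw [GG_prod]
    calc ∏ i ∈ Finset.range m, ((3 : ℝ) ^ r - 3 ^ i) ≤ ∏ _i ∈ Finset.range m, (3 : ℝ) ^ r := by
          refine Finset.prod_le_prod (fun i hi => ?_) fun i _ => ?_
          · have h1 : (3 : ℝ) ^ i ≤ 3 ^ r :=
              pow_le_pow_right₀ (by norm_num) (by have := Finset.mem_range.1 hi; omega)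
            linarith
          · have : (0 : ℝ) < 3 ^ i := by positivity
            linarith
      _ = 3 ^ (m * r) := by
          rw [Finset.prod_const, Finset.card_range, ← pow_mul, mul_comm]
  · rw [GG_prod, Finset.prod_eq_zero (Finset.mem_range.2 h) (sub_self _)]
    positivity

/-- the limits of the moments: `cc m = 3 ^ (m (m - 1) / 2)` -/
noncomputable def cc (m : ℕ) : ℝ := 3 ^ (m * (m - 1) / 2)

theorem cc_zero : cc 0 = 1 := by simp [cc]

theorem cc_succ (m : ℕ) : cc (m + 1) = 3 ^ m * cc m := by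
  unfold cc
  rw [← pow_add, Nat.add_sub_cancel]
  congr 1
  have h1 : (m + 1) * m = 2 * m + m * (m - 1) := by
    rcases m with _ | m
    · rfl
    · rw [Nat.add_sub_cancel]; ring
  rw [h1, Nat.mul_add_div (by norm_num)]

/-- **the moments converge exponentially fast** -/
theorem mom_conv {w c : ℕ → ℝ} (hw : ∀ m, 0 ≤ w m) (c0 : c 0 = 1)
    (cs : ∀ m, c (m + 1) = w m * c m) (M : ℕ → ℕ → ℝ) (h0 : ∀ k, M 0 k = 1)
    (hs : ∀ m k, M (m + 1) (k + 1) =
      (1 / 3) ^ (m + 1) * M (m + 1) k + (1 - (1 / 3) ^ (m + 1)) * w m * M m k)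
    (B : ℕ → ℝ) (hB0 : ∀ m, 0 ≤ B m) (hB : ∀ m, |M m 0 - c m| ≤ B m)
    (hBs : ∀ m, 1 ≤ m → 9 / 2 * w m * B m ≤ B (m + 1)) (m k : ℕ) :
    |M m k - c m| ≤ B m / 3 ^ k := by
  induction m generalizing k with
  | zero =>
    rw [h0, c0, sub_self, abs_zero]
    exact div_nonneg (hB0 0) (by positivity)
  | succ m ihm =>
    induction k with
    | zero =>
      rw [pow_zero, div_one]
      exact hB (m + 1)
    | succ k ihk =>
      have e1 : M (m + 1) (k + 1) - c (m + 1) = (1 / 3) ^ (m + 1) * (M (m + 1) k - c (m + 1)) +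
          (1 - (1 / 3) ^ (m + 1)) * w m * (M m k - c m) := by
        rw [hs, cs]
        ring
      have hp : (0 : ℝ) ≤ (1 / 3) ^ (m + 1) := by positivity
      have hp1 : ((1 / 3 : ℝ)) ^ (m + 1) ≤ 1 := pow_le_one₀ (by norm_num) (by norm_num)
      have h3m : (0 : ℝ) ≤ w m := hw m
      have h3k : (0 : ℝ) < 3 ^ k := by positivity
      rw [e1]
      refine (abs_add_le _ _).trans ?_
      rw [abs_mul, abs_mul, abs_of_nonneg hp,
        abs_of_nonneg (mul_nonneg (by linarith : (0 : ℝ) ≤ 1 - (1 / 3) ^ (m + 1)) h3m)]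
      have a1 := mul_le_mul_of_nonneg_left ihk hp
      rcases Nat.eq_zero_or_pos m with rfl | hm
      · have e2 : |M 0 k - c 0| = 0 := by rw [h0, c0, sub_self, abs_zero]
        rw [e2, mul_zero, add_zero]
        refine a1.trans (le_of_eq ?_)
        rw [pow_succ (3 : ℝ) k]
        field_simp
        norm_num
      · have a2 : (1 - (1 / 3 : ℝ) ^ (m + 1)) * w m * |M m k - c m| ≤
            w m * (B m / 3 ^ k) := by
          have b1 : (1 - (1 / 3 : ℝ) ^ (m + 1)) * w m ≤ w m := by nlinarith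
          exact mul_le_mul b1 (ihm k) (abs_nonneg _) h3m
        have a3 : (1 / 3 : ℝ) ^ (m + 1) ≤ 1 / 9 := by
          have : (1 / 3 : ℝ) ^ (m + 1) ≤ (1 / 3) ^ 2 :=
            pow_le_pow_of_le_one (by norm_num) (by norm_num) (by omega)
          linarith
        have a4 := hBs m hm
        have a5 := hB0 (m + 1)
        have a6 : (1 / 3 : ℝ) ^ (m + 1) * (B (m + 1) / 3 ^ k) ≤ 1 / 9 * (B (m + 1) / 3 ^ k) :=
          mul_le_mul_of_nonneg_right a3 (by positivity)
        have a7 : w m * (B m / 3 ^ k) ≤ 2 / 9 * (B (m + 1) / 3 ^ k) := by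
          have : w m * (B m / 3 ^ k) = (w m * B m) / 3 ^ k := by ring
          rw [this, ← mul_div_assoc, div_le_div_iff_of_pos_right h3k]
          linarith
        have a8 : B (m + 1) / 3 ^ (k + 1) = 1 / 3 * (B (m + 1) / 3 ^ k) := by
          rw [pow_succ]
          field_simp
        rw [a8]
        linarith

/-! ### the powers -/

/-- **one step of the power moments** -/
theorem UV_pw (m r : ℕ) : UV (fun r => ((3 : ℝ) ^ r) ^ (m + 1)) r =
    (1 / 3) ^ (m + 1) * ((3 : ℝ) ^ r) ^ (m + 1) +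
      (1 - (1 / 3) ^ (m + 1)) * (3 ^ m + 1) * ((3 : ℝ) ^ r) ^ m := by
  unfold UV
  have h3 : (3 : ℝ) ^ m ≠ 0 := by positivity
  rcases r with _ | r
  · simp only [pow_zero, one_pow, sub_self, zero_mul, zero_add, pow_one, mul_one]
    simp only [_root_.one_div_pow, pow_succ]
    field_simp
    ring
  · have h4 : (3 : ℝ) ^ r ≠ 0 := by positivity
    rw [Nat.add_sub_cancel]
    simp only [_root_.one_div_pow, pow_succ, mul_pow]
    field_simp
    ring

/-- the limits of the power moments -/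
noncomputable def dm (m : ℕ) : ℝ := ∏ i ∈ Finset.range m, ((3 : ℝ) ^ i + 1)

theorem dm_zero : dm 0 = 1 := by simp [dm]

theorem dm_succ (m : ℕ) : dm (m + 1) = (3 ^ m + 1) * dm m := by
  unfold dm
  rw [Finset.prod_range_succ, mul_comm]

/-- the constants -/
noncomputable def BC (n : ℕ) (m : ℕ) : ℝ := (9 * 3 ^ n) ^ m * 3 ^ (m * (m - 1) / 2)

theorem BC_pos (n m : ℕ) : 0 < BC n m := by
  unfold BC
  positivity

theorem BC_succ (n m : ℕ) : BC n (m + 1) = 9 * 3 ^ n * 3 ^ m * BC n m := by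
  have h1 : (3 : ℝ) ^ ((m + 1) * (m + 1 - 1) / 2) = 3 ^ m * 3 ^ (m * (m - 1) / 2) := by
    rw [← pow_add, Nat.add_sub_cancel]
    congr 1
    have h1 : (m + 1) * m = 2 * m + m * (m - 1) := by
      rcases m with _ | m
      · rfl
      · rw [Nat.add_sub_cancel]; ring
    rw [h1, Nat.mul_add_div (by norm_num)]
  unfold BC
  rw [h1, pow_succ]
  ring

theorem BC_ge (n m : ℕ) : ((3 : ℝ) ^ n) ^ m ≤ BC n m ∧ dm m ≤ BC n m := by
  induction m with
  | zero => simp [BC, dm]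
  | succ m ih =>
    have h0 := BC_pos n m
    have h1 : (1 : ℝ) ≤ 3 ^ m := one_le_pow₀ (by norm_num)
    have h2 : (1 : ℝ) ≤ 3 ^ n := one_le_pow₀ (by norm_num)
    constructor
    · rw [BC_succ, pow_succ]
      have h4 := mul_le_mul_of_nonneg_right ih.1 (by positivity : (0 : ℝ) ≤ 3 ^ n)
      have h5 : BC n m * 3 ^ n ≤ 9 * 3 ^ n * 3 ^ m * BC n m := by
        have : 0 < BC n m * 3 ^ n := by positivity
        nlinarith
      linarith
    · rw [BC_succ, dm_succ]
      have h4 := mul_le_mul_of_nonneg_left ih.2 (by positivity : (0 : ℝ) ≤ 3 ^ m + 1)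
      have h5 : (3 ^ m + 1) * BC n m ≤ 9 * 3 ^ n * 3 ^ m * BC n m := by
        have h6 : (3 ^ m + 1 : ℝ) ≤ 9 * 3 ^ n * 3 ^ m := by nlinarith
        exact mul_le_mul_of_nonneg_right h6 h0.le
      linarith

theorem BC_step (n m : ℕ) : 9 / 2 * (3 ^ m + 1) * BC n m ≤ BC n (m + 1) := by
  have h0 := BC_pos n m
  have h1 : (1 : ℝ) ≤ 3 ^ m := one_le_pow₀ (by norm_num)
  have h2 : (1 : ℝ) ≤ 3 ^ n := one_le_pow₀ (by norm_num)
  rw [BC_succ]
  have h6 : 9 / 2 * (3 ^ m + 1 : ℝ) ≤ 9 * 3 ^ n * 3 ^ m := by nlinarith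
  exact mul_le_mul_of_nonneg_right h6 h0.le

/-- **the moments of the limit law** -/
theorem law_moments {p : ℕ → ℝ} (h1 : ∀ r, p r = ((3 : ℝ) ^ (r + 1) - 1) * p (r + 1))
    (hp : HasSum p 1) (m : ℕ) : HasSum (fun r => ((3 : ℝ) ^ r) ^ m * p r) (dm m) := by
  induction m with
  | zero =>
    simp only [pow_zero, one_mul, dm_zero]
    exact hp
  | succ m ih =>
    have e1 : (fun r => (3 : ℝ) ^ m * (((3 : ℝ) ^ r) ^ m * p r)) =
        fun r => (((3 : ℝ) ^ (r + 1)) ^ (m + 1) - ((3 : ℝ) ^ (r + 1)) ^ m) * p (r + 1) := by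
      funext r
      rw [h1 r]
      simp only [pow_succ, mul_pow]
      ring
    have h2 := ih.mul_left ((3 : ℝ) ^ m)
    rw [e1] at h2
    have h3 := (hasSum_nat_add_iff
      (f := fun r => (((3 : ℝ) ^ r) ^ (m + 1) - ((3 : ℝ) ^ r) ^ m) * p r) 1).1 h2
    simp only [Finset.sum_range_one, pow_zero, one_pow, sub_self, zero_mul, add_zero] at h3
    have h4 := h3.add ih
    rw [dm_succ]
    have e2 : (3 ^ m + 1) * dm m = 3 ^ m * dm m + dm m := by ring
    rw [e2]
    refine h4.congr_fun ?_ |> fun h => h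
    intro r
    ring

end Pool.Agent.U150.RG
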